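import Mathlib
import Pool.Agent.U209.BX.Stm
import Pool.Agent.R253.BE.Dual

set_option autoImplicit false

/-!
Package LIMF of project BX (MP_7d928b_an): the limit function and its area integrals.
-/

namespace Pool.Agent.U324.BX.LIMF

open Pool.Agent.U209.BX
open Polynomial Complex Finset Filter Topology MeasureTheory ComplexConjugate Metric

lemma ex_cont : Continuous ex := by unfold ex; fun_prop

lemma norm_ex (θ : ℝ) : ‖ex θ‖ = 1 := by
  unfold ex; exact Complex.norm_exp_ofReal_mul_I θ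

lemma circle_eq (r θ : ℝ) : circleMap 0 r θ = r * ex θ := by
  simp [circleMap, ex]

lemma circle_one (θ : ℝ) : circleMap 0 1 θ = ex θ := by
  simp [circleMap, ex]

/-- Minkowski inequality in `L²` of the circle, first form -/
lemma mink_pos {g h : ℝ → ℂ} (hg : Continuous g) (hh : Continuous h) {a b : ℝ} (ha : 0 < a)
    (hb : 0 < b) (h1 : ∫ θ in (0:ℝ)..(2 * Real.pi), ‖g θ‖ ^ 2 ≤ a ^ 2)
    (h2 : ∫ θ in (0:ℝ)..(2 * Real.pi), ‖h θ‖ ^ 2 ≤ b ^ 2) :
    ∫ θ in (0:ℝ)..(2 * Real.pi), ‖g θ + h θ‖ ^ 2 ≤ (a + b) ^ 2 := by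
  have hpi : (0:ℝ) ≤ 2 * Real.pi := by positivity
  have hcg : Continuous (fun θ => (1 + b / a) * ‖g θ‖ ^ 2) := by fun_prop
  have hch : Continuous (fun θ => (1 + a / b) * ‖h θ‖ ^ 2) := by fun_prop
  have hcs : Continuous (fun θ => ‖g θ + h θ‖ ^ 2) := by fun_prop
  calc ∫ θ in (0:ℝ)..(2 * Real.pi), ‖g θ + h θ‖ ^ 2
      ≤ ∫ θ in (0:ℝ)..(2 * Real.pi), ((1 + b / a) * ‖g θ‖ ^ 2 + (1 + a / b) * ‖h θ‖ ^ 2) := by
        apply intervalIntegral.integral_mono_on hpi (hcs.intervalIntegrable _ _)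
          ((hcg.add hch).intervalIntegrable _ _)
        intro θ _
        have hn : ‖g θ + h θ‖ ≤ ‖g θ‖ + ‖h θ‖ := norm_add_le _ _
        have h3 : ‖g θ + h θ‖ ^ 2 ≤ (‖g θ‖ + ‖h θ‖) ^ 2 := by gcongr
        have h4 : (1 + b / a) * ‖g θ‖ ^ 2 + (1 + a / b) * ‖h θ‖ ^ 2 - (‖g θ‖ + ‖h θ‖) ^ 2 =
            (b * ‖g θ‖ - a * ‖h θ‖) ^ 2 / (a * b) := by
          field_simp
          ring
        have h5 : 0 ≤ (b * ‖g θ‖ - a * ‖h θ‖) ^ 2 / (a * b) := by positivity
        show ‖g θ + h θ‖ ^ 2 ≤ (1 + b / a) * ‖g θ‖ ^ 2 + (1 + a / b) * ‖h θ‖ ^ 2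
        linarith
    _ = (1 + b / a) * (∫ θ in (0:ℝ)..(2 * Real.pi), ‖g θ‖ ^ 2) +
        (1 + a / b) * (∫ θ in (0:ℝ)..(2 * Real.pi), ‖h θ‖ ^ 2) := by
        rw [intervalIntegral.integral_add (hcg.intervalIntegrable _ _) (hch.intervalIntegrable _ _),
          intervalIntegral.integral_const_mul, intervalIntegral.integral_const_mul]
    _ ≤ (1 + b / a) * a ^ 2 + (1 + a / b) * b ^ 2 := by gcongr
    _ = (a + b) ^ 2 := by field_simp; ring

lemma mink {g h : ℝ → ℂ} (hg : Continuous g) (hh : Continuous h) {a b : ℝ} (ha : 0 ≤ a)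
    (hb : 0 ≤ b) (h1 : ∫ θ in (0:ℝ)..(2 * Real.pi), ‖g θ‖ ^ 2 ≤ a ^ 2)
    (h2 : ∫ θ in (0:ℝ)..(2 * Real.pi), ‖h θ‖ ^ 2 ≤ b ^ 2) :
    ∫ θ in (0:ℝ)..(2 * Real.pi), ‖g θ + h θ‖ ^ 2 ≤ (a + b) ^ 2 := by
  have hlim : Tendsto (fun ε : ℝ => ((a + ε) + (b + ε)) ^ 2) (𝓝[>] 0) (𝓝 ((a + b) ^ 2)) := by
    have : Continuous (fun ε : ℝ => ((a + ε) + (b + ε)) ^ 2) := by fun_prop
    have h3 := (this.tendsto 0).mono_left (nhdsWithin_le_nhds (s := Set.Ioi 0))
    simpa using h3
  refine ge_of_tendsto hlim ?_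
  filter_upwards [self_mem_nhdsWithin] with ε hε
  have hε' : 0 < ε := hε
  apply mink_pos hg hh (by linarith) (by linarith)
  · refine h1.trans ?_
    gcongr; linarith
  · refine h2.trans ?_
    gcongr; linarith

/-- the bound of the mean by the quadratic mean -/
lemma mean_one {g : ℝ → ℂ} (hg : Continuous g) {a : ℝ} (ha : 0 < a)
    (h1 : ∫ θ in (0:ℝ)..(2 * Real.pi), ‖g θ‖ ^ 2 ≤ a ^ 2) :
    ∫ θ in (0:ℝ)..(2 * Real.pi), ‖g θ‖ ≤ (1 + 2 * Real.pi) / 2 * a := by
  have hpi : (0:ℝ) ≤ 2 * Real.pi := by positivity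
  have hc1 : Continuous (fun θ => (1 / (2 * a)) * ‖g θ‖ ^ 2) := by fun_prop
  calc ∫ θ in (0:ℝ)..(2 * Real.pi), ‖g θ‖
      ≤ ∫ θ in (0:ℝ)..(2 * Real.pi), ((1 / (2 * a)) * ‖g θ‖ ^ 2 + a / 2) := by
        apply intervalIntegral.integral_mono_on hpi (hg.norm.intervalIntegrable _ _)
          ((hc1.add continuous_const).intervalIntegrable _ _)
        intro θ _
        have h4 : (1 / (2 * a)) * ‖g θ‖ ^ 2 + a / 2 - ‖g θ‖ = (‖g θ‖ - a) ^ 2 / (2 * a) := by
          field_simp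
          ring
        have h5 : 0 ≤ (‖g θ‖ - a) ^ 2 / (2 * a) := by positivity
        show ‖g θ‖ ≤ 1 / (2 * a) * ‖g θ‖ ^ 2 + a / 2
        linarith
    _ = (1 / (2 * a)) * (∫ θ in (0:ℝ)..(2 * Real.pi), ‖g θ‖ ^ 2) + 2 * Real.pi * (a / 2) := by
        rw [intervalIntegral.integral_add (hc1.intervalIntegrable _ _)
          (continuous_const.intervalIntegrable _ _),
          intervalIntegral.integral_const_mul, intervalIntegral.integral_const]
        simp
    _ ≤ (1 / (2 * a)) * a ^ 2 + 2 * Real.pi * (a / 2) := by gcongr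
    _ = (1 + 2 * Real.pi) / 2 * a := by field_simp

/-- point bound by the quadratic mean on the circle -/
lemma point_bound {G : ℂ → ℂ} {ρ : ℝ} (hρ : 1 < ρ) (hG : DifferentiableOn ℂ G (ball 0 ρ)) {a : ℝ}
    (ha : 0 < a) (h : ∫ θ in (0:ℝ)..(2 * Real.pi), ‖G (ex θ)‖ ^ 2 ≤ a ^ 2) {z : ℂ}
    (hz : ‖z‖ < 1) : ‖G z‖ ≤ a / (1 - ‖z‖) := by
  have hd : DiffContOnCl ℂ G (ball 0 1) := by
    apply DifferentiableOn.diffContOnCl
    rw [closure_ball (0:ℂ) one_ne_zero]
    exact hG.mono (closedBall_subset_ball hρ)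
  have hcau := hd.two_pi_i_inv_smul_circleIntegral_sub_inv_smul (w := z) (by simpa using hz)
  have hz1 : 0 < 1 - ‖z‖ := by linarith
  have hGc : Continuous (fun θ : ℝ => G (ex θ)) := by
    apply ContinuousOn.comp_continuous hG.continuousOn ex_cont
    intro θ
    simp [norm_ex, hρ]
  have hm := mean_one hGc ha h
  have hpi : (0:ℝ) < 2 * Real.pi := by positivity
  have hint : ‖∮ w in C(0, 1), (w - z)⁻¹ • G w‖ ≤ (1 / (1 - ‖z‖)) * ((1 + 2 * Real.pi) / 2 * a) := by
    rw [circleIntegral]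
    calc ‖∫ θ in (0:ℝ)..(2 * Real.pi), deriv (circleMap 0 1) θ •
          ((circleMap 0 1 θ - z)⁻¹ • G (circleMap 0 1 θ))‖
        ≤ ∫ θ in (0:ℝ)..(2 * Real.pi), (1 / (1 - ‖z‖)) * ‖G (ex θ)‖ := by
          apply intervalIntegral.norm_integral_le_of_norm_le hpi.le
          · refine ae_of_all _ fun θ _ => ?_
            rw [deriv_circleMap, circle_one, norm_smul, norm_smul, norm_mul, norm_ex, norm_I,
              norm_inv]
            simp only [one_mul]
            have h1 : 1 - ‖z‖ ≤ ‖ex θ - z‖ := by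
              have := norm_sub_norm_le (ex θ) z
              rw [norm_ex] at this
              exact this
            have h2 : ‖ex θ - z‖⁻¹ ≤ 1 / (1 - ‖z‖) := by
              rw [one_div]
              exact inv_anti₀ hz1 h1
            gcongr
          · exact (continuous_const.mul hGc.norm).intervalIntegrable _ _
      _ = (1 / (1 - ‖z‖)) * ∫ θ in (0:ℝ)..(2 * Real.pi), ‖G (ex θ)‖ := by
          rw [intervalIntegral.integral_const_mul]
      _ ≤ _ := by gcongr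
  rw [← hcau, norm_smul]
  have h2pi : ‖(2 * (Real.pi : ℂ) * I)⁻¹‖ = 1 / (2 * Real.pi) := by
    rw [norm_inv, norm_mul, norm_mul, norm_I, Complex.norm_ofNat, Complex.norm_real,
      Real.norm_of_nonneg Real.pi_pos.le]
    simp
  rw [h2pi]
  calc 1 / (2 * Real.pi) * ‖∮ w in C(0, 1), (w - z)⁻¹ • G w‖
      ≤ 1 / (2 * Real.pi) * ((1 / (1 - ‖z‖)) * ((1 + 2 * Real.pi) / 2 * a)) := by gcongr
    _ = ((1 + 2 * Real.pi) / (4 * Real.pi)) * (a / (1 - ‖z‖)) := by
        field_simp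
        ring
    _ ≤ 1 * (a / (1 - ‖z‖)) := by
        have h3 : (1 + 2 * Real.pi) / (4 * Real.pi) ≤ 1 := by
          rw [div_le_one (by positivity)]
          linarith [Real.pi_gt_three]
        gcongr
    _ = a / (1 - ‖z‖) := one_mul _

lemma zf_radius {u : ℂ[X]} (hu : ZF u) : ∃ ρ : ℝ, 1 < ρ ∧ ∀ z ∈ ball (0:ℂ) ρ, u.eval z ≠ 0 := by
  have hopen : IsOpen {z : ℂ | u.eval z ≠ 0} := by
    have : Continuous (fun z : ℂ => u.eval z) := u.continuous
    exact isOpen_ne_fun this continuous_const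
  have hsub : closedBall (0:ℂ) 1 ⊆ {z : ℂ | u.eval z ≠ 0} := by
    intro z hz
    exact hu z (by simpa using hz)
  obtain ⟨δ, hδ, hth⟩ := (isCompact_closedBall (0:ℂ) 1).exists_thickening_subset_open hopen hsub
  refine ⟨δ + 1, by linarith, ?_⟩
  intro z hz
  rw [thickening_closedBall hδ (by norm_num)] at hth
  exact hth hz

lemma fn_diff {u : ℂ[X]} {ρ : ℝ} (h : ∀ z ∈ ball (0:ℂ) ρ, u.eval z ≠ 0) :
    DifferentiableOn ℂ (Fn u) (ball 0 ρ) := by
  intro z hz
  have h1 : DifferentiableAt ℂ (fun z : ℂ => u.eval z) z := u.differentiable.differentiableAt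
  exact ((h1.pow 3).inv (pow_ne_zero 3 (h z hz))).differentiableWithinAt

lemma fn_diff2 {u v : ℂ[X]} (hu : ZF u) (hv : ZF v) : ∃ ρ : ℝ, 1 < ρ ∧
    DifferentiableOn ℂ (fun z => Fn u z - Fn v z) (ball 0 ρ) := by
  obtain ⟨ρ, hρ, h1⟩ := zf_radius hu
  obtain ⟨ρ', hρ', h2⟩ := zf_radius hv
  refine ⟨min ρ ρ', lt_min hρ hρ', ?_⟩
  exact ((fn_diff h1).mono (ball_subset_ball (min_le_left _ _))).sub
    ((fn_diff h2).mono (ball_subset_ball (min_le_right _ _)))

lemma fn_circle {u : ℂ[X]} (hu : ZF u) : Continuous (fun θ : ℝ => Fn u (ex θ)) := by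
  obtain ⟨ρ, hρ, h1⟩ := zf_radius hu
  apply ContinuousOn.comp_continuous (fn_diff h1).continuousOn ex_cont
  intro θ
  simp [norm_ex, hρ]

lemma fn_circle_r {u : ℂ[X]} (hu : ZF u) {r : ℝ} (h0 : 0 ≤ r) (hr : r < 1) :
    Continuous (fun θ : ℝ => Fn u (r * ex θ)) := by
  obtain ⟨ρ, hρ, h1⟩ := zf_radius hu
  apply ContinuousOn.comp_continuous (fn_diff h1).continuousOn (continuous_const.mul ex_cont)
  intro θ
  show (r:ℂ) * ex θ ∈ ball (0:ℂ) ρ
  rw [mem_ball_zero_iff, norm_mul, norm_ex, Complex.norm_real, Real.norm_of_nonneg h0]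
  linarith

section seq

variable {u : ℕ → ℂ[X]} {C : ℝ} {d : ℕ → ℝ} (hg : Good u C d)
include hg

lemma sum_part (j l : ℕ) : (∫ θ in (0:ℝ)..(2 * Real.pi),
    ‖Fn (u (j + l)) (ex θ) - Fn (u j) (ex θ)‖ ^ 2) ≤ (∑ m ∈ range l, d (m + j)) ^ 2 := by
  obtain ⟨hz, -, hd, hs, hstep, -⟩ := hg
  induction l with
  | zero => simp
  | succ l ih =>
    have h1 := mink (g := fun θ => Fn (u (j + l)) (ex θ) - Fn (u j) (ex θ))
      (h := fun θ => Fn (u (j + l + 1)) (ex θ) - Fn (u (j + l)) (ex θ))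
      ((fn_circle (hz _)).sub (fn_circle (hz _))) ((fn_circle (hz _)).sub (fn_circle (hz _)))
      (Finset.sum_nonneg fun m _ => hd _) (hd (j + l)) ih (hstep (j + l))
    rw [Finset.sum_range_succ, add_comm l j]
    refine le_trans (le_of_eq ?_) h1
    congr 1
    ext θ
    congr 2
    rw [show j + (l + 1) = j + l + 1 by ring]
    ring

lemma circ_tail (j l : ℕ) (hjl : j ≤ l) : (∫ θ in (0:ℝ)..(2 * Real.pi),
    ‖Fn (u l) (ex θ) - Fn (u j) (ex θ)‖ ^ 2) ≤ (∑' m, d (m + j)) ^ 2 := by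
  obtain ⟨k, rfl⟩ := Nat.exists_eq_add_of_le hjl
  refine (sum_part hg j k).trans ?_
  have hd := hg.2.2.1
  have hs : Summable (fun m => d (m + j)) := (summable_nat_add_iff j).2 hg.2.2.2.1
  have h0 : 0 ≤ ∑ m ∈ range k, d (m + j) := Finset.sum_nonneg fun m _ => hd _
  have h1 : ∑ m ∈ range k, d (m + j) ≤ ∑' m, d (m + j) :=
    hs.sum_le_tsum _ fun m _ => hd _
  gcongr

lemma point_tail {j l : ℕ} (hjl : j ≤ l) {a : ℝ} (ha : 0 < a) (hta : ∑' m, d (m + j) ≤ a) {z : ℂ}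
    (hz : ‖z‖ < 1) : ‖Fn (u l) z - Fn (u j) z‖ ≤ a / (1 - ‖z‖) := by
  obtain ⟨ρ, hρ, hdiff⟩ := fn_diff2 (hg.1 l) (hg.1 j)
  apply point_bound hρ hdiff ha _ hz
  refine (circ_tail hg j l hjl).trans ?_
  have h0 : 0 ≤ ∑' m, d (m + j) := tsum_nonneg fun m => hg.2.2.1 _
  gcongr

omit hg in
lemma tail_zero : Tendsto (fun j => ∑' m, d (m + j)) atTop (𝓝 0) :=
  tendsto_sum_nat_add d

lemma point_small {r : ℝ} (hr : r < 1) {ε : ℝ} (hε : 0 < ε) : ∃ J : ℕ, ∀ j, J ≤ j → ∀ l, j ≤ l →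
    ∀ z : ℂ, ‖z‖ ≤ r → ‖Fn (u l) z - Fn (u j) z‖ ≤ ε := by
  have h1 : 0 < ε * (1 - r) := mul_pos hε (by linarith)
  obtain ⟨J, hJ⟩ := eventually_atTop.1 (tail_zero.eventually (gt_mem_nhds h1))
  refine ⟨J, fun j hj l hl z hz => ?_⟩
  have h2 := point_tail hg hl h1 (hJ j hj).le (lt_of_le_of_lt hz hr)
  refine h2.trans ?_
  rw [div_le_iff₀ (by linarith)]
  gcongr

lemma cauchy_pt {z : ℂ} (hz : ‖z‖ < 1) : CauchySeq (fun j => Fn (u j) z) := by
  rw [Metric.cauchySeq_iff']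
  intro ε hε
  obtain ⟨J, hJ⟩ := point_small hg hz (half_pos hε)
  refine ⟨J, fun n hn => ?_⟩
  rw [dist_eq_norm]
  have := hJ J le_rfl n hn z le_rfl
  linarith

end seq

theorem t_LIMF : S_LIMF := by
  intro u C d hg
  classical
  have hlim : ∀ z ∈ ball (0:ℂ) 1, ∃ w, Tendsto (fun j => Fn (u j) z) atTop (𝓝 w) := fun z hz =>
    cauchySeq_tendsto_of_complete (cauchy_pt hg (by simpa using hz))
  choose! F hF using hlim
  have hsmall : ∀ r < (1:ℝ), ∀ ε : ℝ, 0 < ε → ∃ J : ℕ, ∀ j, J ≤ j → ∀ z : ℂ, ‖z‖ ≤ r →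
      ‖F z - Fn (u j) z‖ ≤ ε := by
    intro r hr ε hε
    obtain ⟨J, hJ⟩ := point_small hg hr hε
    refine ⟨J, fun j hj z hz => ?_⟩
    have hzb : z ∈ ball (0:ℂ) 1 := by simpa using lt_of_le_of_lt hz hr
    have ht : Tendsto (fun l => ‖Fn (u l) z - Fn (u j) z‖) atTop (𝓝 ‖F z - Fn (u j) z‖) :=
      ((hF z hzb).sub_const _).norm
    refine le_of_tendsto ht ?_
    filter_upwards [eventually_ge_atTop j] with l hl
    exact hJ j hj l hl z hz
  have hloc : TendstoLocallyUniformlyOn (fun j => Fn (u j)) F atTop (ball 0 1) := by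
    rw [tendstoLocallyUniformlyOn_iff_forall_isCompact isOpen_ball]
    intro K hK hKc
    obtain ⟨r, hr, hKr⟩ := exists_lt_subset_ball hKc.isClosed hK
    rw [Metric.tendstoUniformlyOn_iff]
    intro ε hε
    obtain ⟨J, hJ⟩ := hsmall r hr (ε / 2) (half_pos hε)
    filter_upwards [eventually_ge_atTop J] with j hj z hz
    rw [dist_eq_norm]
    have hzr : ‖z‖ ≤ r := by
      have := hKr hz
      rw [mem_ball_zero_iff] at this
      exact this.le
    have := hJ j hj z hzr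
    linarith
  have hdiffj : ∀ j, DifferentiableOn ℂ (Fn (u j)) (ball 0 1) := by
    intro j
    obtain ⟨ρ, hρ, h1⟩ := zf_radius (hg.1 j)
    exact (fn_diff h1).mono (ball_subset_ball hρ.le)
  have hFd : DifferentiableOn ℂ F (ball 0 1) :=
    hloc.differentiableOn (Eventually.of_forall hdiffj) isOpen_ball
  refine ⟨F, hFd, hF, ?_⟩
  intro j r h0 hr
  have hbd : ∀ θ : ℝ, ‖(r:ℂ) * ex θ‖ = r := by
    intro θ
    rw [norm_mul, norm_ex, Complex.norm_real, Real.norm_of_nonneg h0.le, mul_one]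
  have ht0 : 0 ≤ ∑' m, d (m + j) := tsum_nonneg fun m => hg.2.2.1 _
  have hconv : Tendsto (fun l => ∫ θ in (0:ℝ)..(2 * Real.pi),
      ‖Fn (u l) (r * ex θ) - Fn (u j) (r * ex θ)‖ ^ 2) atTop
      (𝓝 (∫ θ in (0:ℝ)..(2 * Real.pi), ‖F (r * ex θ) - Fn (u j) (r * ex θ)‖ ^ 2)) := by
    apply intervalIntegral.tendsto_integral_filter_of_dominated_convergence
      (fun _ => (((∑' m, d (m + j)) + 1) / (1 - r)) ^ 2)
    · refine Eventually.of_forall fun l => ?_
      have : Continuous (fun θ : ℝ => ‖Fn (u l) (r * ex θ) - Fn (u j) (r * ex θ)‖ ^ 2) :=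
        (((fn_circle_r (hg.1 l) h0.le hr).sub (fn_circle_r (hg.1 j) h0.le hr)).norm).pow 2
      exact this.aestronglyMeasurable
    · filter_upwards [eventually_ge_atTop j] with l hl
      refine ae_of_all _ fun θ _ => ?_
      have h1 := point_tail hg hl (a := (∑' m, d (m + j)) + 1) (by linarith) (by linarith)
        (z := (r:ℂ) * ex θ) (by rw [hbd]; exact hr)
      rw [hbd] at h1
      rw [Real.norm_of_nonneg (by positivity)]
      gcongr
    · exact continuous_const.intervalIntegrable _ _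
    · refine ae_of_all _ fun θ _ => ?_
      have hzb : (r:ℂ) * ex θ ∈ ball (0:ℂ) 1 := by
        rw [mem_ball_zero_iff, hbd]; exact hr
      exact (((hF _ hzb).sub_const _).norm).pow 2
  refine le_of_tendsto hconv ?_
  filter_upwards [eventually_ge_atTop j] with l hl
  obtain ⟨ρ, hρ, hdiff⟩ := fn_diff2 (hg.1 l) (hg.1 j)
  have hm := Pool.Agent.R253.BE.mean_le hρ hdiff (t := 2) (by norm_num) h0 hr
  simp only [Real.rpow_two, circle_eq] at hm
  simp only [ofReal_one, one_mul] at hm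
  exact hm.trans (circ_tail hg j l hl)

/-- area integrals from circle integrals -/
lemma area_bound {G : ℂ → ℂ} (hG : ContinuousOn G (ball 0 1)) {M : ℝ} (hM : ∀ r : ℝ, 0 < r → r < 1 →
    (∫ θ in (0:ℝ)..(2 * Real.pi), ‖G (r * ex θ)‖ ^ 2) ≤ M) :
    IntegrableOn (fun z => ‖G z‖ ^ 2) (ball (0:ℂ) 1) ∧ ∫ z in ball (0:ℂ) 1, ‖G z‖ ^ 2 ≤ M := by
  have hM0 : 0 ≤ M := by
    have h1 := hM (1 / 2) (by norm_num) (by norm_num)
    refine le_trans ?_ h1
    exact intervalIntegral.integral_nonneg (by positivity) fun θ _ => by positivity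
  set R : ℕ → ℝ := fun n => 1 - 1 / ((n : ℝ) + 2) with hR
  have hR0 : ∀ n, 0 < R n := by
    intro n
    have h1 : 1 / ((n : ℝ) + 2) < 1 := by
      rw [div_lt_one (by positivity)]
      have : (0:ℝ) ≤ n := Nat.cast_nonneg n
      linarith
    simp only [hR]; linarith
  have hR1 : ∀ n, R n < 1 := by
    intro n
    have h1 : 0 < 1 / ((n : ℝ) + 2) := by positivity
    simp only [hR]; linarith
  have hRlim : Tendsto R atTop (𝓝 1) := by
    have h1 : Tendsto (fun n : ℕ => 1 / ((n : ℝ) + 2)) atTop (𝓝 0) := by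
      have := tendsto_const_nhds (x := (1:ℝ)).div_atTop
        (tendsto_atTop_add_const_right atTop (2:ℝ) (tendsto_natCast_atTop_atTop (R := ℝ)))
      exact this
    have h2 := (tendsto_const_nhds (x := (1:ℝ)) (f := (atTop : Filter ℕ))).sub h1
    simpa [hR] using h2
  have hRmono : Monotone R := by
    intro n m hnm
    simp only [hR]
    have : (n:ℝ) ≤ m := by exact_mod_cast hnm
    gcongr
  have hcov : AECover (volume.restrict (ball (0:ℂ) 1)) atTop (fun n => ball (0:ℂ) (R n)) := by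
    constructor
    · rw [ae_restrict_iff' measurableSet_ball]
      refine ae_of_all _ fun z hz => ?_
      rw [mem_ball_zero_iff] at hz
      filter_upwards [hRlim.eventually (lt_mem_nhds hz)] with n hn
      simpa using hn
    · intro n
      exact measurableSet_ball
  have hsub : ∀ n, closedBall (0:ℂ) (R n) ⊆ ball 0 1 := fun n => closedBall_subset_ball (hR1 n)
  have hc2 : ContinuousOn (fun z => ‖G z‖ ^ 2) (ball (0:ℂ) 1) := (hG.norm).pow 2
  have hrestr : ∀ n, (volume.restrict (ball (0:ℂ) 1)).restrict (ball (0:ℂ) (R n)) =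
      volume.restrict (ball (0:ℂ) (R n)) := by
    intro n
    rw [Measure.restrict_restrict measurableSet_ball,
      Set.inter_eq_left.2 (ball_subset_closedBall.trans (hsub n))]
  have hint : ∀ n, IntegrableOn (fun z => ‖G z‖ ^ 2) (ball (0:ℂ) (R n)) := fun n =>
    ((hc2.mono (hsub n)).integrableOn_compact (isCompact_closedBall _ _)).mono_set
      ball_subset_closedBall
  have hbd : ∀ n, ∫ z in ball (0:ℂ) (R n), ‖G z‖ ^ 2 ≤ M := by
    intro n
    rw [Pool.Agent.H758R2.Besov.polar_ball _ (hR0 n) (hc2.mono (hsub n))]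
    have hii := Pool.Agent.H758R2.Besov.polar_intervalIntegrable (fun z => ‖G z‖ ^ 2) (hR0 n)
      (hc2.mono (hsub n))
    calc ∫ r in (0:ℝ)..(R n), ∫ θ in (-Real.pi)..Real.pi, r • ‖G (circleMap 0 r θ)‖ ^ 2
        ≤ ∫ r in (0:ℝ)..(R n), M := by
          apply intervalIntegral.integral_mono_on_of_le_Ioo (hR0 n).le hii
            (continuous_const.intervalIntegrable _ _)
          intro r hr
          have hr0 : 0 < r := hr.1
          have hr1 : r < 1 := hr.2.trans (hR1 n)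
          have hper : Function.Periodic (fun θ : ℝ => ‖G (circleMap 0 r θ)‖ ^ 2)
              (2 * Real.pi) := by
            intro θ
            simp only [periodic_circleMap 0 r θ]
          have h1 := hper.intervalIntegral_add_eq (-Real.pi) 0
          rw [zero_add, show -Real.pi + 2 * Real.pi = Real.pi by ring] at h1
          rw [intervalIntegral.integral_smul, h1, smul_eq_mul]
          have h2 := hM r hr0 hr1
          simp only [circle_eq]
          have h3 : 0 ≤ ∫ θ in (0:ℝ)..(2 * Real.pi), ‖G (r * ex θ)‖ ^ 2 :=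
            intervalIntegral.integral_nonneg (by positivity) fun θ _ => by positivity
          nlinarith
      _ = R n * M := by rw [intervalIntegral.integral_const]; simp
      _ ≤ 1 * M := by gcongr; exact (hR1 n).le
      _ = M := one_mul M
  have hI : Integrable (fun z => ‖G z‖ ^ 2) (volume.restrict (ball (0:ℂ) 1)) := by
    apply hcov.integrable_of_integral_bounded_of_nonneg_ae M
    · intro n
      rw [IntegrableOn, hrestr n]
      exact hint n
    · exact ae_of_all _ fun z => by positivity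
    · refine Eventually.of_forall fun n => ?_
      rw [hrestr n]
      exact hbd n
  refine ⟨hI, ?_⟩
  have ht := hcov.integral_tendsto_of_countably_generated hI
  refine le_of_tendsto' ht fun n => ?_
  rw [hrestr n]
  exact hbd n

theorem t_AREA : S_AREA := by
  intro u C d F hg hF
  obtain ⟨hFd, -, hcirc⟩ := hF
  have hdiffj : ∀ j, DifferentiableOn ℂ (Fn (u j)) (ball 0 1) := by
    intro j
    obtain ⟨ρ, hρ, h1⟩ := zf_radius (hg.1 j)
    exact (fn_diff h1).mono (ball_subset_ball hρ.le)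
  have hAj : ∀ j, IntegrableOn (fun z => ‖F z - Fn (u j) z‖ ^ 2) (ball (0:ℂ) 1) ∧
      ∫ z in ball (0:ℂ) 1, ‖F z - Fn (u j) z‖ ^ 2 ≤ (∑' l, d (l + j)) ^ 2 := by
    intro j
    exact area_bound (G := fun z => F z - Fn (u j) z)
      (hFd.continuousOn.sub (hdiffj j).continuousOn) (fun r h0 h1 => hcirc j r h0 h1)
  constructor
  · -- integrability of `‖F‖ ^ 2`
    obtain ⟨ρ, hρ, h1⟩ := zf_radius (hg.1 0)
    obtain ⟨B, hB⟩ := (isCompact_closedBall (0:ℂ) 1).exists_bound_of_continuousOn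
      ((fn_diff h1).continuousOn.mono (closedBall_subset_ball hρ))
    have hI0 := (hAj 0).1
    have hdom : IntegrableOn (fun z => 2 * ‖F z - Fn (u 0) z‖ ^ 2 + 2 * B ^ 2)
        (ball (0:ℂ) 1) := by
      apply Integrable.add (hI0.const_mul 2)
      exact integrableOn_const (by simp)
    refine Integrable.mono' hdom ?_ ?_
    · exact ((hFd.continuousOn.norm).pow 2).aestronglyMeasurable measurableSet_ball
    · rw [ae_restrict_iff' measurableSet_ball]
      refine ae_of_all _ fun z hz => ?_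
      rw [Real.norm_of_nonneg (by positivity)]
      have h2 := hB z (ball_subset_closedBall hz)
      have h3 : ‖F z‖ ≤ ‖F z - Fn (u 0) z‖ + ‖Fn (u 0) z‖ := by
        have := norm_add_le (F z - Fn (u 0) z) (Fn (u 0) z)
        simpa using this
      have h4 : ‖F z‖ ^ 2 ≤ (‖F z - Fn (u 0) z‖ + ‖Fn (u 0) z‖) ^ 2 := by gcongr
      have h5 : ‖Fn (u 0) z‖ ^ 2 ≤ B ^ 2 := by gcongr
      nlinarith [sq_nonneg (‖F z - Fn (u 0) z‖ - ‖Fn (u 0) z‖)]
  · have h0 : Tendsto (fun j => (∑' l, d (l + j)) ^ 2) atTop (𝓝 0) := by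
      have := (tail_zero (d := d)).pow 2
      simpa using this
    exact squeeze_zero (fun j => integral_nonneg fun z => by positivity) (fun j => (hAj j).2) h0

end Pool.Agent.U324.BX.LIMF
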